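import Pool.Agent.H81.D3.Targets

/-!
MP_ee74d2_an, the chain of planar steps: row GSA, the broad planks.
-/

set_option autoImplicit false

namespace Pool.Agent.H1.D3

open MeasureTheory Set Pool.Agent.H83.G Pool.Agent.H81.D3

theorem pf_GSA (hRSE : T_RSE) (hGCE : T_GCE) (hCTG : T_CTG) : T_GSA := by
  intro L β hL hβ
  obtain ⟨B, hB, hRS⟩ := hRSE L β hβ
  have hB0 : 0 < B := by linarith
  refine ⟨B ^ (4 / 3 : ℝ), Real.one_le_rpow hB (by norm_num), ?_⟩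
  intro N₁ cb₀ C₁ ε δ₁ Cb R A D H K w n G P hLem hε hδ₁ hCb hR hA hH hD hw hwR hK hKΛ hn hG
    hsep htag hP
  have hw0 : (0 : ℝ) < w := by
    have : 0 < w := by omega
    exact_mod_cast this
  have hw1 : (1 : ℝ) ≤ w := by exact_mod_cast hw
  have hR0 : 0 < R := by linarith
  obtain ⟨R', hR'⟩ : ∃ R' : ℝ, R' = R / (w : ℝ) ^ 2 := ⟨_, rfl⟩
  have hR'1 : 1 ≤ R' := by
    rw [hR', le_div_iff₀ (by positivity), one_mul]
    exact hwR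
  have hR'0 : 0 < R' := by linarith
  have hR'R : R' ≤ R := by
    rw [hR']
    exact div_le_self hR0.le (one_le_pow₀ hw1)
  obtain ⟨Λ, hΛ⟩ : ∃ Λ : ℝ, Λ = A * R / ((w : ℝ) ^ 2 * H) := ⟨_, rfl⟩
  have hΛ0 : 0 < Λ := by rw [hΛ]; positivity
  rw [← hΛ] at hKΛ ⊢
  have hRS' : R * ((w : ℝ)⁻¹) ^ 2 = R' := by
    rw [hR', inv_pow, div_eq_mul_inv]
  have hcls : ∀ κ, Cls L (1 / 4) R' (B * A) (Gc β w G κ) := by
    intro κ
    have h := (hRS (1 / 4) R A ((w : ℝ)⁻¹) (ctr (w : ℝ)⁻¹ κ) G (by norm_num) (by norm_num) hA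
      (by positivity) (inv_le_one_of_one_le₀ hw1) (by rw [hRS']; exact hR'1) hG).1
    rw [hRS'] at h
    exact h
  have hΛH : Λ * H ≤ B * A * R' := by
    have e1 : Λ * H = A * R' := by
      rw [hΛ, hR']
      field_simp
    rw [e1]
    have : 0 < A * R' := by positivity
    nlinarith
  have hn' : R' ^ δ₁ ≤ n := (Real.rpow_le_rpow hR'0.le hR'R hδ₁.le).trans hn
  have hI : ∀ F : Z 2 → ℂ, 0 ≤ ∫ ζ, ‖F ζ‖ ^ 2 := fun F => integral_nonneg fun ζ => by positivity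
  have hH3 : 0 < H ^ (10 / 3 : ℝ) := Real.rpow_pos_of_pos hH _
  obtain ⟨c, hc⟩ : ∃ c : ℝ, c = Cb * R' ^ ε * Λ ^ (-cb₀) * ((B * A) ^ (4 / 3 : ℝ) *
    R' ^ (1 / 3 : ℝ)) / H ^ (10 / 3 : ℝ) := ⟨_, rfl⟩
  have hc0 : 0 ≤ c := by rw [hc]; positivity
  have h1 := hCTG D w P (fun κ => c * ∫ ζ, ‖Gc β w G κ ζ‖ ^ 2) (by linarith)
    (fun p hp => (hP p hp).1) hsep htag (fun κ => mul_nonneg hc0 (hI _)) (by
      intro κ hκ Y hY hYP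
      have h2 := hLem R' Λ K (B * A) H n (Gc β w G κ) Y hR'1 hK hKΛ hn' (by positivity) hH hΛH
        (hcls κ) hY (by
          intro z hz V
          obtain ⟨t, ht⟩ := hYP z hz
          exact (hP _ ht).2.2 V)
      rw [hc, div_mul_eq_mul_div, le_div_iff₀ hH3]
      refine h2.trans (le_of_eq ?_)
      unfold En43
      ring)
  rw [← Finset.mul_sum] at h1
  have h3 := hGCE L β R A G w hβ hR hA hw hG
  have hD0 : 0 ≤ D := by linarith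
  have h4 : (P.card : ℝ) ≤ D * (c * (((w : ℝ) ^ 4)⁻¹ * ∫ ζ, ‖G ζ‖ ^ 2)) :=
    h1.trans (mul_le_mul_of_nonneg_left (mul_le_mul_of_nonneg_left h3 hc0) hD0)
  have hw23 : R' ^ (1 / 3 : ℝ) * (w : ℝ) ^ (2 / 3 : ℝ) = R ^ (1 / 3 : ℝ) := by
    have e1 : (w : ℝ) ^ (2 / 3 : ℝ) = ((w : ℝ) ^ 2) ^ (1 / 3 : ℝ) := by
      rw [← Real.rpow_natCast (w : ℝ) 2, ← Real.rpow_mul hw0.le]
      norm_num
    rw [e1, ← Real.mul_rpow hR'0.le (by positivity), hR', div_mul_cancel₀ _ (by positivity)]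
  have hI0 := hI G
  have hRε : R' ^ ε ≤ R ^ ε := Real.rpow_le_rpow hR'0.le hR'R hε.le
  calc (P.card : ℝ) * (w : ℝ) ^ 4 * H ^ (10 / 3 : ℝ) * (w : ℝ) ^ (2 / 3 : ℝ)
      ≤ (D * (c * (((w : ℝ) ^ 4)⁻¹ * ∫ ζ, ‖G ζ‖ ^ 2))) * (w : ℝ) ^ 4 * H ^ (10 / 3 : ℝ) *
          (w : ℝ) ^ (2 / 3 : ℝ) := by gcongr
    _ = D * Cb * R' ^ ε * Λ ^ (-cb₀) * (B * A) ^ (4 / 3 : ℝ) *
          (R' ^ (1 / 3 : ℝ) * (w : ℝ) ^ (2 / 3 : ℝ)) * ∫ ζ, ‖G ζ‖ ^ 2 := by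
        rw [hc]
        field_simp
    _ = B ^ (4 / 3 : ℝ) * D * Cb * R' ^ ε * Λ ^ (-cb₀) * En43 A R G := by
        rw [hw23, Real.mul_rpow hB0.le hA.le]
        unfold En43
        ring
    _ ≤ B ^ (4 / 3 : ℝ) * D * Cb * R ^ ε * Λ ^ (-cb₀) * En43 A R G := by
        have : 0 ≤ En43 A R G := by unfold En43; positivity
        gcongr

end Pool.Agent.H1.D3
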